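import Pool.Agent.X190.AT.Betti

set_option autoImplicit false

universe u

noncomputable section

namespace Pool.Agent.Results.MP_f80465_gt.CoamenableSubgroups

variable {G : Type u} [Group G] {l m n : ℕ}

/-- The `ℓ²`-chains: square-summable functions with `m` coordinates on `G`. -/
abbrev Chains (G : Type u) (m : ℕ) : Type u := lp (fun _ : Fin m × G => ℂ) 2

/-- The values of an `ℓ²`-chain. -/
def val (x : Chains G m) : Fin m × G → ℂ := x

/-- The closure of a set of `ℓ²`-chains in the `ℓ²`-norm. -/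
def cl (P : Set (Chains G m)) : Set (Chains G m) := closure P

open Classical in
/-- One minus the square of the `ℓ²`-distance from the basis vector at `(i, t)` to `P`. For a closed
subspace `P` this is the square of the length of the projection of the basis vector to `P`. -/
def proj (i : Fin m) (t : G) (P : Set (Chains G m)) : ℝ :=
  1 - Metric.infDist (lp.single (E := fun _ : Fin m × G => ℂ) 2 (i, t) (1 : ℂ)) P ^ 2

/-- The product `x A` of the row vector `x` over the square-summable functions on `G` and the matrix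
`A` over the complex group ring: its value in the coordinate `j` and at the group element `g`. -/
def mulMat (A : Matrix (Fin m) (Fin n) (G →₀ ℂ)) (x : Fin m × G → ℂ) (j : Fin n) (g : G) : ℂ :=
  ∑ k : Fin m, ∑ h ∈ (A k j).support, x (k, g * h⁻¹) * A k j h

/-- The `ℓ²`-cycles for the boundary map `A`: all square-summable `x` with `x A = 0`. -/
def cycles (A : Matrix (Fin m) (Fin n) (G →₀ ℂ)) : Set (Chains G m) :=
  {x | ∀ (j : Fin n) (g : G), mulMat A (val x) j g = 0}

/-- The closure of the set of all `x A` with `x` in `S`. -/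
def boundaries (A : Matrix (Fin m) (Fin n) (G →₀ ℂ)) (S : Set (Chains G m)) : Set (Chains G n) :=
  cl {y | ∃ x ∈ S, ∀ (j : Fin n) (g : G), val y (j, g) = mulMat A (val x) j g}

/-- The sum over `i` and over the elements `t` of `T` of the squared lengths of the projections of the
basis vectors at `(i, t)` to `P`. For `T = {1}` and a `G`-invariant closed subspace it is the von
Neumann dimension over `G`. For a subgroup `H`, a set `T` of elements of different cosets `H t` and an
`H`-invariant closed subspace of the space of functions supported on the union of these cosets it is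
the von Neumann dimension over `H`. -/
def dim (T : Finset G) (P : Set (Chains G m)) : ℝ := ∑ i : Fin m, ∑ t ∈ T, proj i t P

/-- The composition of the boundary maps `D'` and `D` is zero. -/
def IsComplex (D' : Matrix (Fin l) (Fin m) (G →₀ ℂ)) (D : Matrix (Fin m) (Fin n) (G →₀ ℂ)) : Prop :=
  ∀ (x : Chains G l) (j : Fin n) (g : G), mulMat D (fun p => mulMat D' (val x) p.1 p.2) j g = 0

/-- The `ℓ²`-Betti number in the middle degree of the complex `ℂG^l → ℂG^m → ℂG^n`: the von Neumann
dimension of the space of `ℓ²`-cycles minus the one of the closure of the space of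
`ℓ²`-boundaries. -/
def betti (D' : Matrix (Fin l) (Fin m) (G →₀ ℂ)) (D : Matrix (Fin m) (Fin n) (G →₀ ℂ)) : ℝ :=
  dim {1} (cycles D) - dim {1} (boundaries D' Set.univ)

/-- The chains supported on the union of the cosets `H t` with `t` in `T`. -/
def supportedOver (H : Subgroup G) (T : Finset G) : Set (Chains G m) :=
  {x | ∀ (i : Fin m) (g : G), (∀ t ∈ T, g * t⁻¹ ∉ H) → val x (i, g) = 0}

/-- The `ℓ²`-Betti number over the subgroup `H` in the middle degree of the complex
`ℂG^l → ℂG^m → ℂG^n` of (infinitely generated) free `ℂH`-modules is finite, in the sense of Cheeger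
and Gromov: for some bound `β` and all finite unions `H T` of different cosets `H t` there is a finite
union `H T'` such that the `ℓ²`-cycles on `H T`, modulo those in the closure of the space of the
boundaries of the `ℓ²`-chains on `H T'`, have dimension at most `β` over `H`. -/
def FiniteBetti (H : Subgroup G) (D' : Matrix (Fin l) (Fin m) (G →₀ ℂ))
    (D : Matrix (Fin m) (Fin n) (G →₀ ℂ)) : Prop :=
  ∃ β : ℝ, ∀ T : Finset G, (∀ s ∈ T, ∀ t ∈ T, s * t⁻¹ ∈ H → s = t) → ∃ T' : Finset G,
    dim T (cycles D ∩ supportedOver H T)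
      ≤ β + dim T (cycles D ∩ supportedOver H T ∩ boundaries D' (supportedOver H T'))

/-- The action of `G` on `Ω` is amenable: for every finite set `S` of elements of `G` and every
`ε > 0` there is a nonempty finite set `W` in `Ω` such that for every `t` in `S` at most `ε |W|`
elements `y` of `W` satisfy `t y ∉ W`. -/
def AmenableAction (G Ω : Type u) [Group G] [MulAction G Ω] : Prop :=
  ∀ (S : Finset G) (ε : ℝ), 0 < ε → ∃ W : Finset Ω, W.Nonempty ∧
    ∀ t ∈ S, (({y | y ∈ W ∧ t • y ∉ W} : Set Ω).ncard : ℝ) ≤ ε * W.card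

open W649.ZL X190.TW X190.AT

open Classical in
theorem flp_single' (i : Fin m) (t : G) :
    flp (lp.single (E := fun _ : Fin m × G => ℂ) 2 (i, t) (1 : ℂ)) = (dl (t⁻¹, i) : EE G (Fin m)) := by
  ext ⟨x, k⟩
  rw [flp_apply]
  by_cases hx : (x, k) = (t⁻¹, i)
  · obtain ⟨rfl, rfl⟩ := Prod.mk.inj hx
    rw [dl_apply_self, inv_inv]
    exact lp.single_apply_self (E := fun _ : Fin m × G => ℂ) 2 (k, t) (1 : ℂ)
  · rw [dl_apply_ne _ _ hx]
    apply lp.single_apply_ne (E := fun _ : Fin m × G => ℂ) 2 (i, t) (1 : ℂ)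
    intro h
    obtain ⟨h1, h2⟩ := Prod.mk.inj h
    apply hx
    rw [← h2, ← h1, inv_inv]

theorem dim_eq (T : Finset G) (P : Set (lp (fun _ : Fin m × G => ℂ) 2)) :
    dim T P = ∑ i : Fin m, ∑ t ∈ T, (1 - Metric.infDist (dl (t⁻¹, i) : EE G (Fin m))
      (flp '' P) ^ 2) := by
  unfold dim
  refine Finset.sum_congr rfl fun i _ => Finset.sum_congr rfl fun t _ => ?_
  rw [← flp_single', Metric.infDist_image isometry_flp]
  rfl

theorem flp_closure (P : Set (lp (fun _ : Fin m × G => ℂ) 2)) :
    flp '' closure P = closure (flp '' P) := by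
  let e : lp (fun _ : Fin m × G => ℂ) 2 ≃ᵢ EE G (Fin m) :=
    { toEquiv := Equiv.ofBijective flp ⟨isometry_flp.injective, flp_surj⟩
      isometry_toFun := isometry_flp }
  exact e.toHomeomorph.image_closure P

theorem op (A : Matrix (Fin m) (Fin n) (G →₀ ℂ)) (T : Finset G)
    (hT : ∀ i j, (A i j).support ⊆ T) : ∃ S : EE G (Fin m) →L[ℂ] EE G (Fin n), Eqv S ∧
    kerDimM A = vd (LinearMap.ker (S : EE G (Fin m) →ₗ[ℂ] EE G (Fin n))) ∧
    (∀ (F : EE G (Fin m)) (u : G) (j : Fin n), S F (u, j)
      = ∑ k, ∑ t ∈ T, A k j t * F (t * u, k)) ∧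
    ∀ (x : lp (fun _ : Fin m × G => ℂ) 2) (u : G) (j : Fin n),
      S (flp x) (u, j) = mulMat A (val x) j u⁻¹ := by
  obtain ⟨S, h1, h2, h3⟩ := exists_opT A T hT
  refine ⟨S, h1, h2, h3, ?_⟩
  intro x u j
  rw [h3]
  unfold mulMat
  refine Finset.sum_congr rfl fun k _ => ?_
  symm
  rw [Finset.sum_subset (hT k j)]
  · refine Finset.sum_congr rfl fun t _ => ?_
    rw [flp_apply, mul_inv_rev, mul_comm]
    rfl
  · intro t _ ht
    rw [Finsupp.notMem_support_iff.1 ht, mul_zero]

theorem cycles_eq (A : Matrix (Fin m) (Fin n) (G →₀ ℂ)) (S : EE G (Fin m) →L[ℂ] EE G (Fin n))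
    (hS : ∀ (x : lp (fun _ : Fin m × G => ℂ) 2) (u : G) (j : Fin n),
      S (flp x) (u, j) = mulMat A (val x) j u⁻¹) : flp '' cycles A = {F | S F = 0} := by
  ext F
  constructor
  · rintro ⟨x, hx, rfl⟩
    change S (flp x) = 0
    ext ⟨u, j⟩
    rw [hS]
    exact hx j u⁻¹
  · intro hF
    obtain ⟨x, rfl⟩ := flp_surj F
    refine ⟨x, ?_, rfl⟩
    intro j g
    have h1 := hS x g⁻¹ j
    rw [inv_inv] at h1
    rw [← h1]
    have h2 : S (flp x) = 0 := hF
    rw [h2]
    rfl

theorem boundaries_eq (A : Matrix (Fin m) (Fin n) (G →₀ ℂ)) (S : EE G (Fin m) →L[ℂ] EE G (Fin n))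
    (hS : ∀ (x : lp (fun _ : Fin m × G => ℂ) 2) (u : G) (j : Fin n),
      S (flp x) (u, j) = mulMat A (val x) j u⁻¹) (P : Set (lp (fun _ : Fin m × G => ℂ) 2)) :
    flp '' boundaries A P = closure (S '' (flp '' P)) := by
  unfold boundaries cl
  rw [flp_closure]
  congr 1
  ext F
  constructor
  · rintro ⟨y, ⟨x, hx, hy⟩, rfl⟩
    refine ⟨flp x, ⟨x, hx, rfl⟩, ?_⟩
    ext ⟨u, j⟩
    rw [hS, flp_apply]
    exact (hy j u⁻¹).symm
  · rintro ⟨_, ⟨x, hx, rfl⟩, rfl⟩
    obtain ⟨y, hy⟩ := flp_surj (S (flp x))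
    refine ⟨y, ⟨x, hx, ?_⟩, hy⟩
    intro j g
    have h1 := hS x g⁻¹ j
    rw [inv_inv, ← hy, flp_apply, inv_inv] at h1
    exact h1

theorem betti_eq (D' : Matrix (Fin l) (Fin m) (G →₀ ℂ)) (D : Matrix (Fin m) (Fin n) (G →₀ ℂ)) :
    dim {1} (cycles D) = kerDimM D ∧ dim {1} (boundaries D' Set.univ) = l - kerDimM D' := by
  classical
  obtain ⟨T1, hT1⟩ := exists_supp D
  obtain ⟨T2, hT2⟩ := exists_supp D'
  obtain ⟨S, hS, hSk, _, hSx⟩ := op D T1 hT1
  obtain ⟨S', hS', hSk', _, hSx'⟩ := op D' T2 hT2
  constructor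
  · rw [dim_eq, cycles_eq D S hSx, hSk, vd_eq_infDist _ (ContinuousLinearMap.isClosed_ker S)]
    refine Finset.sum_congr rfl fun i _ => ?_
    rw [Finset.sum_singleton, inv_one]
    rfl
  · have h1 := ker_add_range S' hS'
    rw [Fintype.card_fin, ← vd_closure (LinearMap.range (S' : EE G (Fin l) →ₗ[ℂ] EE G (Fin m))),
      ← hSk'] at h1
    have h2 : dim {1} (boundaries D' Set.univ)
        = vd (LinearMap.range (S' : EE G (Fin l) →ₗ[ℂ] EE G (Fin m))).topologicalClosure := by
      rw [dim_eq, boundaries_eq D' S' hSx', vd_eq_infDist _ (Submodule.isClosed_topologicalClosure _)]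
      refine Finset.sum_congr rfl fun i _ => ?_
      rw [Finset.sum_singleton, inv_one]
      have h3 : closure (S' '' (flp '' Set.univ))
          = ((LinearMap.range (S' : EE G (Fin l) →ₗ[ℂ] EE G (Fin m))).topologicalClosure :
            Set (EE G (Fin m))) := by
        rw [Submodule.topologicalClosure_coe]
        congr 1
        ext F
        constructor
        · rintro ⟨F', _, rfl⟩
          exact ⟨F', rfl⟩
        · rintro ⟨F', rfl⟩
          obtain ⟨x, rfl⟩ := flp_surj F'
          exact ⟨_, ⟨x, Set.mem_univ _, rfl⟩, rfl⟩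
      rw [h3]
    rw [h2]
    linarith

theorem betti_nonneg (D' : Matrix (Fin l) (Fin m) (G →₀ ℂ)) (D : Matrix (Fin m) (Fin n) (G →₀ ℂ))
    (hc : IsComplex D' D) : (l : ℝ) - kerDimM D' ≤ kerDimM D := by
  classical
  obtain ⟨T1, hT1⟩ := exists_supp D
  obtain ⟨T2, hT2⟩ := exists_supp D'
  obtain ⟨S, hS, hSk, hSa, hSx⟩ := op D T1 hT1
  obtain ⟨S', hS', hSk', _, hSx'⟩ := op D' T2 hT2
  have h1 := ker_add_range S' hS'
  rw [Fintype.card_fin, ← hSk'] at h1
  have h2 : vd (LinearMap.range (S' : EE G (Fin l) →ₗ[ℂ] EE G (Fin m))) ≤ kerDimM D := by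
    rw [hSk]
    apply vd_mono
    rintro _ ⟨F, rfl⟩
    obtain ⟨x, rfl⟩ := flp_surj F
    change S (S' (flp x)) = 0
    obtain ⟨y, hy⟩ := flp_surj (S' (flp x))
    have hy' : ∀ j g, val y (j, g) = mulMat D' (val x) j g := by
      intro j g
      have h1 := hSx' x g⁻¹ j
      rw [inv_inv, ← hy, flp_apply, inv_inv] at h1
      exact h1
    rw [← hy]
    ext ⟨u, j⟩
    rw [hSx]
    have h3 := hc x j u⁻¹
    have h4 : (fun p : Fin m × G => mulMat D' (val x) p.1 p.2) = val y := by
      funext p
      exact (hy' p.1 p.2).symm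
    rw [h4] at h3
    exact h3
  linarith

theorem main (H : Subgroup G) (hH : AmenableAction G (G ⧸ H)) (hi : Infinite (G ⧸ H))
    (D' : Matrix (Fin l) (Fin m) (G →₀ ℂ)) (D : Matrix (Fin m) (Fin n) (G →₀ ℂ))
    (hβ : FiniteBetti H D' D) : kerDimM D + kerDimM D' - l ≤ 0 := by
  classical
  obtain ⟨T1, hT1⟩ := exists_supp D
  obtain ⟨T2, hT2⟩ := exists_supp D'
  obtain ⟨S, hS, hSk, hSa, hSx⟩ := op D (T1 ∪ T2) (fun i j => (hT1 i j).trans
    Finset.subset_union_left)
  obtain ⟨S', hS', hSk', hSa', hSx'⟩ := op D' (T1 ∪ T2) (fun i j => (hT2 i j).trans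
    Finset.subset_union_right)
  obtain ⟨β, hβ⟩ := hβ
  have key := betti_zero H hH hi D' D S' S (T1 ∪ T2)
    (fun i j => (hT2 i j).trans Finset.subset_union_right)
    (fun i j => (hT1 i j).trans Finset.subset_union_left) hSa' hSa β ?_
  · rw [Fintype.card_fin] at key
    exact key
  · intro W
    let T : Finset G := W.image (fun y => (y.out)⁻¹)
    have hT : ∀ s ∈ T, ∀ t ∈ T, s * t⁻¹ ∈ H → s = t := by
      intro s hs t ht hst
      obtain ⟨y, _, rfl⟩ := Finset.mem_image.1 hs
      obtain ⟨z, _, rfl⟩ := Finset.mem_image.1 ht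
      rw [inv_inv, ← QuotientGroup.eq, QuotientGroup.out_eq', QuotientGroup.out_eq'] at hst
      rw [hst]
    have hinj : Set.InjOn (fun y : G ⧸ H => (y.out)⁻¹) (W : Set (G ⧸ H)) := by
      intro y _ z _ hyz
      have h1 : y.out = z.out := inv_injective hyz
      rw [← QuotientGroup.out_eq' y, h1, QuotientGroup.out_eq']
    have hdim : ∀ P : Set (lp (fun _ : Fin m × G => ℂ) 2), dim T P = hd H W (flp '' P) := by
      intro P
      rw [dim_eq]
      unfold hd
      refine Finset.sum_congr rfl fun i _ => ?_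
      rw [Finset.sum_image hinj]
      simp only [inv_inv]
    obtain ⟨T', hT'⟩ := hβ T hT
    rw [hdim, hdim] at hT'
    have hov : flp '' (cycles D ∩ supportedOver H T) = Ov H W ∩ {F | S F = 0} := by
      rw [Set.image_inter isometry_flp.injective, cycles_eq D S hSx, Set.inter_comm]
      congr 1
      ext F
      constructor
      · rintro ⟨x, hx, rfl⟩
        intro g i hg
        rw [flp_apply]
        apply hx
        intro t ht hgt
        obtain ⟨y, hy, rfl⟩ := Finset.mem_image.1 ht
        apply hg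
        rw [inv_inv, ← QuotientGroup.eq, QuotientGroup.out_eq'] at hgt
        rw [hgt]
        exact hy
      · intro hF
        obtain ⟨x, rfl⟩ := flp_surj F
        refine ⟨x, ?_, rfl⟩
        intro i g hg
        have h1 := hF g⁻¹ i (by
          intro hmem
          apply hg _ (Finset.mem_image_of_mem _ hmem)
          have h2 := out_mem H g⁻¹
          have h3 := H.inv_mem h2
          rw [mul_inv_rev, inv_inv, inv_inv] at h3
          rw [inv_inv]
          exact h3)
        rw [flp_apply, inv_inv] at h1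
        exact h1
    refine ⟨flp '' (cycles D ∩ supportedOver H T ∩ boundaries D' (supportedOver H T')), ?_, ?_, ?_⟩
    · refine (Set.image_mono Set.inter_subset_right).trans ?_
      rw [boundaries_eq D' S' hSx']
      exact closure_mono (Set.image_subset_range _ _)
    · refine ⟨flp 0, 0, ⟨⟨?_, ?_⟩, ?_⟩, rfl⟩
      · intro j g
        unfold mulMat
        apply Finset.sum_eq_zero
        intro k _
        apply Finset.sum_eq_zero
        intro h _
        exact zero_mul _
      · intro i g _
        rfl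
      · apply subset_closure
        refine ⟨0, fun i g _ => rfl, ?_⟩
        intro j g
        unfold mulMat
        symm
        apply Finset.sum_eq_zero
        intro k _
        apply Finset.sum_eq_zero
        intro h _
        exact zero_mul _
    · rw [← hov]
      exact hT'

/-- Let `H` be a co-amenable subgroup of infinite index in the group `G` (the action of `G` on `G/H`
is amenable; for example `H` is normal and `G/H` is an infinite amenable group, or `G` is an infinite
amenable group and `H` is trivial).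

1. For every complex `ℂG^l → ℂG^m → ℂG^n` whose `ℓ²`-Betti number over `H` in the middle degree is
   finite the `ℓ²`-Betti number over `G` in the middle degree is zero.
2. Let `... → ℂG^(c 3) → ℂG^(c 2) → ℂG^(c 1) → ℂG^(c 0) = 0` be a finite complex of finitely generated
   free modules, for example the cellular chain complex of the universal covering of a finite complex
   with fundamental group `G`, such as a closed aspherical manifold (`c (p + 1)` is the number of
   cells of dimension `p`). If all its `ℓ²`-Betti numbers over `H` are finite then all its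
   `ℓ²`-Betti numbers over `G` and its Euler characteristic are zero. -/
theorem result (H : Subgroup G) (hH : AmenableAction G (G ⧸ H)) (hi : Infinite (G ⧸ H)) :
    (∀ (l m n : ℕ) (D' : Matrix (Fin l) (Fin m) (G →₀ ℂ)) (D : Matrix (Fin m) (Fin n) (G →₀ ℂ)),
      IsComplex D' D → FiniteBetti H D' D → betti D' D = 0) ∧
    (∀ (c : ℕ → ℕ) (N : ℕ) (D : ∀ p, Matrix (Fin (c (p + 1))) (Fin (c p)) (G →₀ ℂ)),
      c 0 = 0 → (∀ p, N < p → c p = 0) → (∀ p, IsComplex (D (p + 1)) (D p)) →
      (∀ p, FiniteBetti H (D (p + 1)) (D p)) →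
      (∀ p, betti (D (p + 1)) (D p) = 0) ∧
        ∑ p ∈ Finset.range N, (-1 : ℤ) ^ p * (c (p + 1) : ℤ) = 0) := by
  have h1 : ∀ (l m n : ℕ) (D' : Matrix (Fin l) (Fin m) (G →₀ ℂ))
      (D : Matrix (Fin m) (Fin n) (G →₀ ℂ)),
      IsComplex D' D → FiniteBetti H D' D → betti D' D = 0 := by
    intro l m n D' D hc hβ
    unfold betti
    rw [(betti_eq D' D).1, (betti_eq D' D).2]
    have h1 := main H hH hi D' D hβ
    have h2 := betti_nonneg D' D hc
    linarith
  refine ⟨h1, ?_⟩
  intro c N D hc0 hcN hD hβ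
  have h2 : ∀ p, betti (D (p + 1)) (D p) = 0 := fun p => h1 _ _ _ _ _ (hD p) (hβ p)
  refine ⟨h2, ?_⟩
  have h3 : ∀ p, kerDimM (D p) + kerDimM (D (p + 1)) = c (p + 1 + 1) := by
    intro p
    have h4 := h2 p
    unfold betti at h4
    rw [(betti_eq (D (p + 1)) (D p)).1, (betti_eq (D (p + 1)) (D p)).2] at h4
    linarith
  -- the bottom and the top
  have hb : kerDimM (D 0) = c 1 := by
    obtain ⟨T, hT⟩ := exists_supp (D 0)
    obtain ⟨S, hS, hSk, _, _⟩ := op (D 0) T hT
    have h4 : LinearMap.ker (S : EE G (Fin (c 1)) →ₗ[ℂ] EE G (Fin (c 0))) = ⊤ := by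
      rw [eq_top_iff]
      intro F _
      change S F = 0
      ext ⟨x, i⟩
      have hlt := i.2
      omega
    rw [hSk, h4, vd_top, Fintype.card_fin]
  have ht : kerDimM (D N) = 0 := by
    have hN := hcN (N + 1) (Nat.lt_succ_self N)
    unfold kerDimM
    apply Finset.sum_eq_zero
    intro i _
    have hlt := i.2
    omega
  have hsum : ∀ M : ℕ, (∑ p ∈ Finset.range (M + 1), (-1 : ℝ) ^ p * (c (p + 1) : ℝ))
      = (-1 : ℝ) ^ M * kerDimM (D M) := by
    intro M
    induction M with
    | zero =>
      rw [Finset.sum_range_succ, Finset.sum_range_zero, pow_zero, one_mul, one_mul, hb]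
      exact zero_add _
    | succ M ih =>
      rw [Finset.sum_range_succ, ih, ← h3 M, pow_succ]
      ring
  have h5 := hsum N
  rw [ht, mul_zero, Finset.sum_range_succ, hcN (N + 1) (Nat.lt_succ_self N), Nat.cast_zero, mul_zero,
    add_zero] at h5
  exact_mod_cast h5

end Pool.Agent.Results.MP_f80465_gt.CoamenableSubgroups
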