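import Pool.Agent.X250.Sph.Bound2

/-!
# Betti numbers outside the middle degree and Charney-Davis quantities of links

Let `L` be the flag complex of the finite graph `G`, and suppose that `L` is a real homology manifold
with the real homology of the `(n-1)`-sphere (for example a flag triangulated sphere).  The Davis
complex `Σ` of the right-angled Coxeter group `W = W G` is then a contractible real homology
`n`-manifold, and its quotients `Σ / H` by torsion-free subgroups of finite index are closed aspherical
(homology) manifolds.  The Singer conjecture says that the normalised Betti numbers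
`b_i(Σ / H) / [W : H]` of such quotients with large injectivity radius are small for `i ≠ n / 2`.

Here `n = 2 j + k`, and we assume only that the links of the faces with `k` vertices, which are
`(2 j - 1)`-dimensional, are in the class `AM (2 j)`.  We show: `b_i / [W : H]` is small for `i < j` and
`i > n - j`, and for `i = n - j` it is, up to a small error, at most `2^(-k)` times the sum of the
Charney-Davis quantities `(-1)^j χ(W_{lk T})` of the links of the faces `T` with `k` vertices, where the
faces inside a full subcomplex of dimension `< n - j - 1` may be omitted.  If all these quantities are zero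
then the `ℓ²`-homology vanishes in the degrees `j` and `n - j` too; for `k ≤ 2` this is the Singer
conjecture for `Σ`, and it contains new cases in odd dimensions `n = 2 j + 1`.
-/

set_option autoImplicit false

namespace Pool.Agent.Results.MP_f80465_gt.LinkBounds

open Module Pool.Agent.W907.SG Pool.Agent.W907.SM Pool.Agent.TH652.Above Pool.Agent.Y132.SI
  Pool.Agent.X250.Sph

/-- Let `n = 2 j + k` with `1 ≤ k`, let the flag complex of `G` be a real homology sphere of dimension
`n - 1` such that the links of the faces with `k` vertices are in the class `AM (2 j)`, and let `D` be a set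
of vertices which contains no face with `j + k` vertices.
(1) The reduced `ℓ²`-homology of the Davis complex of `W G` vanishes in the degrees `i < j` and `i > j + k`.
(2) For each `ε > 0` there is a finite set `E` of nontrivial elements of `W G` such that for every subgroup
`H` of finite index which contains no conjugate of an element of `E`, the dimension of the space of
`H`-invariant real harmonic `i`-chains of the Davis complex (the `i`-th real Betti number of the quotient if
`H` is torsion-free) is at most `ε [W G : H]` for `i < j` and for `i > j + k`, and for `i = j + k` it is at most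
`(2^(-k) S + ε) [W G : H]`, where `S` is the sum of `(-1)^j χ(W_{lk T})` over the faces `T` with `k` vertices
which are not contained in `D`; the same holds for `i = j` if all elements of `H` have even length.
(3) If `γ` is the gamma-vector of the flag complex then for `D = ∅` the number `2^(-k) S` is
`∑ (i choose j) γ_i / 4^i`.
(4) If `(-1)^j χ(W_{lk T}) = 0` for all faces `T` with `k` vertices which are not contained in `D` then the
reduced `ℓ²`-homology also vanishes in the degrees `j` and `j + k`; so if `k ≤ 2` then it vanishes in all
degrees `i ≠ n / 2`. -/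
theorem result : ∀ (j k : ℕ) (V : Type) [Fintype V] [LinearOrder V] (G : SimpleGraph V) (D : Set V),
    1 ≤ k → HSph (2 * j + k) G →
    (∀ T : Finset V, G.IsClique (T : Set V) → T.card = k → AM (2 * j) (G.induce (lk G T))) →
    (∀ T : Finset V, G.IsClique (T : Set V) → (T : Set V) ⊆ D → T.card < j + k) →
    (∀ i : ℕ, i < j ∨ j + k < i → L2Van G i) ∧
    (∀ ε : ℝ, 0 < ε → ∃ E : Finset (W G), (1 : W G) ∉ E ∧ ∀ H : Subgroup (W G), H.FiniteIndex →
      (∀ g ∈ E, ∀ x : W G, x * g * x⁻¹ ∉ H) →
        (∀ i : ℕ, i < j ∨ j + k < i → (finrank ℝ (HInv G H i) : ℝ) ≤ ε * H.index) ∧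
        ((finrank ℝ (HInv G H (j + k)) : ℝ) ≤
          ((1 / 2) ^ k * (∑ T ∈ facesOff G k D, (chiLk G j T : ℝ)) + ε) * H.index) ∧
        ((∀ h ∈ H, Even ((cox G).toCoxeterSystem.length h)) →
          (finrank ℝ (HInv G H j) : ℝ) ≤
            ((1 / 2) ^ k * (∑ T ∈ facesOff G k D, (chiLk G j T : ℝ)) + ε) * H.index)) ∧
    (∀ γ : ℕ → ℤ, IsGam (2 * j + k) G γ →
      (1 / 2) ^ k * ∑ T ∈ facesOff G k ∅, chiLk G j T =
        ∑ i ∈ Finset.range ((2 * j + k) / 2 + 1), (i.choose j : ℚ) * γ i / 4 ^ i) ∧
    ((∀ T ∈ facesOff G k D, chiLk G j T = 0) →
      (L2Van G j ∧ L2Van G (j + k)) ∧ (k ≤ 2 → ∀ i : ℕ, 2 * i ≠ 2 * j + k → L2Van G i)) := by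
  intro j k V _ _ G D hk hS hL hD
  obtain ⟨k, rfl⟩ := Nat.exists_eq_add_of_le' hk
  have hP : FaceP j (k + 1) G := fun T hT hT' => P_of_AM (hL T hT hT')
  have hD' : LV (G.induce D) (j + (k + 1)) := lv_small hD
  refine ⟨fun i hi => hP.outside hS hi, fun ε hε => ?_, fun γ hγ => sum_gamma hS hγ, fun h0 => ?_⟩
  · obtain ⟨E, h1, h2⟩ := hP.growth hS D hD' ε hε
    refine ⟨E, h1, fun H hf hE => ?_⟩
    obtain ⟨h3, h4, h5⟩ := h2 H hf hE
    exact ⟨h3, h4, fun he => by rw [h5 he]; exact h4⟩
  · have h1 := hP.vanish hS D hD' h0
    refine ⟨h1, fun hk2 i hi => ?_⟩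
    by_cases h2 : i < j ∨ j + (k + 1) < i
    · exact hP.outside hS h2
    · have h3 : i = j ∨ i = j + (k + 1) := by omega
      rcases h3 with rfl | rfl
      · exact h1.1
      · exact h1.2

end Pool.Agent.Results.MP_f80465_gt.LinkBounds
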