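import Pool.Agent.X250.Sph.Orb2

/-!
# Upper bounds for Betti numbers of coverings by the homology of descending links

Let `L` be the flag complex of the finite graph `G`, and let `Σ` be the Davis complex of the right-angled Coxeter group
`W = W G`.  If `L` is a homology `(n-1)`-sphere then the quotients of `Σ` by torsion-free subgroups of finite index of
`W` are closed aspherical homology `n`-manifolds, and the Singer conjecture says that their normalised Betti numbers
`b_i(Σ / H) / [W : H]`, for subgroups with large injectivity radius, are small for `i ≠ n / 2`.

A *slope* of `G` on a finite set `X` consists of involutions `a v` of `X` for the vertices `v`, commuting for adjacent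
vertices, and of directions of the edges from `x` to `a v x`, such that opposite edges of squares are parallel (for
example a legal system in the sense of Jankiewicz-Norin-Wise).  It gives a Bestvina-Brady Morse function on an infinite
cyclic covering of a quotient of `Σ` whose descending links are the full subcomplexes `L[down x]`.

We show that there are subgroups of finite index with arbitrarily large injectivity radius whose `i`-th normalised
Betti number is at most the average over `X` of the `(i-1)`-st reduced Betti numbers of the descending links, up to an
arbitrarily small error; for homology spheres the same subgroups satisfy the same bound in the degree `n - i`.  (By the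
approximation theorem of Lück the bound then holds for the `ℓ²`-Betti numbers `b_i = b_{n-i}` of `Σ`.)
-/

set_option autoImplicit false

namespace Pool.Agent.Results.MP_f80465_gt.MorseBettiNumbers

open Module Pool.Agent.W907.SG Pool.Agent.W907.SM Pool.Agent.TH652.Above Pool.Agent.Y132.SI Pool.Agent.X250.Sph
open Pool.Agent.TH652.Dual (triv)

/-- the average over `x` of the dimension of the reduced real homology of `L[down x]` in the degree `i - 1` -/
noncomputable def average {V : Type} [Fintype V] [LinearOrder V] {G : SimpleGraph V} {X : Type} [Fintype X]
    (s : Slope G X) (i : ℕ) : ℝ := (∑ x, (beta G (triv V) (s.down x) ∅ i : ℝ)) / Fintype.card X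

/-- Let `s` be a slope of the finite graph `G` on a nonempty finite set `X`, and let `i` be a degree.  For each
`ε > 0` and each finite set `E` of nontrivial elements of `W G` there is a subgroup `H` of finite index of `W G` which
contains no conjugate of an element of `E`, such that the dimension of the space of the `H`-invariant real harmonic
`i`-chains of the Davis complex (the `i`-th real Betti number of its quotient by `H` if `H` is torsion-free) is at most
`(average s i + ε) [W G : H]`; and if the flag complex of `G` is a real homology sphere of dimension `n - 1` then for
the same `H` this also holds for the `H`-invariant real harmonic `(n - i)`-chains. -/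
theorem result : ∀ (V X : Type) [Fintype V] [LinearOrder V] [Fintype X] [Nonempty X] (G : SimpleGraph V)
    (s : Slope G X) (i : ℕ) (ε : ℝ), 0 < ε → ∀ E : Finset (W G), (1 : W G) ∉ E →
    ∃ H : Subgroup (W G), H.FiniteIndex ∧ (∀ g ∈ E, ∀ x : W G, x * g * x⁻¹ ∉ H) ∧
      (finrank ℝ (HInv G H i) : ℝ) ≤ (average s i + ε) * H.index ∧
      ∀ n j : ℕ, HSph n G → i + j = n → (finrank ℝ (HInv G H j) : ℝ) ≤ (average s i + ε) * H.index := by
  intro V X _ _ _ _ G s i ε hε E hE
  obtain ⟨H, h1, h2, h3, h4⟩ := s.exists_sub i ε hε E hE
  refine ⟨H, h1, h2, h4, fun n j hS hij => ?_⟩
  rw [← duality_even hS H h1 h3 hij]
  exact h4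

end Pool.Agent.Results.MP_f80465_gt.MorseBettiNumbers
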